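import Pool.Agent.Y522.Stm5
import Pool.Agent.Y522.Sum

/-!
# Project SH2: the finite induction
-/

set_option autoImplicit false

open Set Filter Topology Metric Function
open scoped Manifold ContDiff

noncomputable section

namespace Pool.Agent.Y870.SH

open Pool.Agent.Y522

theorem norm_tl_clm {m : ℕ} : ‖(tl : E (m + 1) →L[ℝ] E m)‖ ≤ 1 :=
  ContinuousLinearMap.opNorm_le_bound _ zero_le_one (fun z => by
    rw [one_mul]; exact norm_tl_le z)

theorem exists_lin {m : ℕ} (L L' : E (m + 1) ≃L[ℝ] E (m + 1))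
    (hnp : ¬ ∀ v, tl (L v) = 0 → tl (L' v) = 0) :
    ∃ g₁ g₂ : E m →L[ℝ] E (m + 1), ∀ y, g₁ (tl (L y)) + g₂ (tl (L' y)) = y := by
  push Not at hnp
  obtain ⟨v, hv, hv'⟩ := hnp
  have hker : ∀ y, tl (L y) = 0 → ∃ s : ℝ, y = s • v := by
    intro y hy
    have h1 : ∀ w : E (m + 1), tl w = 0 → w = (w 0) • e0 := by
      intro w hw
      conv_lhs => rw [← cn_tl w, cn_eq, hw]
      have : cn 0 (0 : E m) = 0 := by
        rw [← inc_apply, map_zero]
      rw [this, add_zero]
    have h2 := h1 _ hy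
    have h3 := h1 _ hv
    have hv0 : (L v) 0 ≠ 0 := by
      intro h0
      rw [h0, zero_smul] at h3
      have : v = 0 := by
        apply L.injective
        rw [h3, map_zero]
      rw [this] at hv'
      apply hv'
      simp
    refine ⟨(L y) 0 / (L v) 0, ?_⟩
    apply L.injective
    rw [map_smul, h2, h3]
    simp only [PiLp.smul_apply, smul_eq_mul]
    rw [smul_smul]
    congr 1
    have he : (e0 : E (m + 1)) 0 = 1 := rfl
    rw [he]
    field_simp
  set Ψ : E (m + 1) →ₗ[ℝ] E m × E m :=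
    LinearMap.prod ((tl : E (m + 1) →L[ℝ] E m) ∘L (L : E (m + 1) →L[ℝ] E (m + 1))).toLinearMap
      ((tl : E (m + 1) →L[ℝ] E m) ∘L (L' : E (m + 1) →L[ℝ] E (m + 1))).toLinearMap with hΨ
  have hinj : LinearMap.ker Ψ = ⊥ := by
    rw [LinearMap.ker_eq_bot']
    intro y hy
    have h1 : tl (L y) = 0 := congrArg Prod.fst hy
    have h2 : tl (L' y) = 0 := congrArg Prod.snd hy
    obtain ⟨s, rfl⟩ := hker y h1
    rw [map_smul, map_smul] at h2
    rcases smul_eq_zero.1 h2 with h | h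
    · rw [h, zero_smul]
    · exact absurd h hv'
  obtain ⟨g, hg⟩ := LinearMap.exists_leftInverse_of_injective Ψ hinj
  refine ⟨LinearMap.toContinuousLinearMap (g ∘ₗ LinearMap.inl ℝ (E m) (E m)),
    LinearMap.toContinuousLinearMap (g ∘ₗ LinearMap.inr ℝ (E m) (E m)), ?_⟩
  intro y
  have h1 : g (Ψ y) = y := by
    have := congrArg (fun f : E (m + 1) →ₗ[ℝ] E (m + 1) => f y) hg
    simpa using this
  have h2 : Ψ y = (tl (L y), 0) + (0, tl (L' y)) := by
    rw [Prod.mk_add_mk, add_zero, zero_add]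
    rfl
  rw [h2, map_add] at h1
  exact h1

section

variable {m : ℕ} {X : Type} [TopologicalSpace X] [ChartedSpace (E (m + 1)) X]

theorem smN_of_not_par {F : X → E (m + 1)} {p : X} (L L' : E (m + 1) ≃L[ℝ] E (m + 1))
    (hnp : ¬ ∀ v, tl (L v) = 0 → tl (L' v) = 0)
    (h1 : ∀ᶠ y in 𝓝 p, ContMDiffAt (𝓡 (m + 1)) (𝓡 m) ∞ (fun y => tl (L (F y))) y)
    (h2 : ∀ᶠ y in 𝓝 p, ContMDiffAt (𝓡 (m + 1)) (𝓡 m) ∞ (fun y => tl (L' (F y))) y) :
    SmN m F p := by
  obtain ⟨g₁, g₂, hg⟩ := exists_lin L L' hnp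
  have hF : F = fun y => g₁ (tl (L (F y))) + g₂ (tl (L' (F y))) := by
    funext y; rw [hg]
  unfold SmN
  rw [hF]
  filter_upwards [h1, h2] with y hy1 hy2
  have e1 : ContMDiffAt (𝓡 (m + 1)) (𝓡 (m + 1)) ∞ (fun y => g₁ (tl (L (F y)))) y :=
    (g₁.contMDiff.contMDiffAt).comp y hy1
  have e2 : ContMDiffAt (𝓡 (m + 1)) (𝓡 (m + 1)) ∞ (fun y => g₂ (tl (L' (F y)))) y :=
    (g₂.contMDiff.contMDiffAt).comp y hy2
  exact e1.add e2

theorem differentiableAt_comp {F : X → E (m + 1)} {A : E (m + 1) → X} {z : E (m + 1)}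
    (hA : LD (m + 1) A z) (hF : SmN m F (A z)) : DifferentiableAt ℝ (fun w => F (A w)) z := by
  have h1 : ContMDiffAt (𝓡 (m + 1)) (𝓡 (m + 1)) ∞ (fun w => F (A w)) z :=
    (hF.self_of_nhds).comp z hA.contMDiffAt
  exact (contMDiffAt_iff_contDiffAt.1 h1).differentiableAt (by simp)

theorem open_small_box (r : ℝ) : IsOpen {z : E (m + 1) | ‖tl z‖ < r ∧ |z 0| < r} := by
  apply IsOpen.inter
  · exact isOpen_lt (tl.continuous.norm) continuous_const
  · exact isOpen_lt (continuous_head.abs) continuous_const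

/-- the derivative in a box in normal form -/
theorem NBox_fderiv {F : X → E (m + 1)} {A : E (m + 1) → X} {L : E (m + 1) ≃L[ℝ] E (m + 1)}
    {b : E m} (h : NBox m F A L b) {z : E (m + 1)} (hz : z ∈ box m 1 1) :
    fderiv ℝ (fun w => tl (L (F (A w)))) z = tl := by
  set u : E (m + 1) → E m := fun w => tl (L (F (A w))) with hu
  have hint : ∀ w ∈ {z : E (m + 1) | ‖tl z‖ < 1 ∧ |z 0| < 1}, fderiv ℝ u w = tl := by
    intro w hw
    have h1 : u =ᶠ[𝓝 w] fun w => tl w + b := by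
      filter_upwards [(open_small_box 1).mem_nhds hw] with y hy
      exact h.eq y ⟨hy.1.le, hy.2.le⟩
    rw [h1.fderiv_eq]
    exact ((tl : E (m + 1) →L[ℝ] E m).hasFDerivAt.add_const b).fderiv
  have hsm : ContDiffAt ℝ ∞ u z := by
    have h1 := (h.sm z hz).self_of_nhds
    have h2 : ContMDiffAt (𝓡 (m + 1)) (𝓡 m) ∞ u z :=
      ContMDiffAt.comp z (g := fun y => tl (L (F y))) h1 (h.ld z hz).contMDiffAt
    exact contMDiffAt_iff_contDiffAt.1 h2
  have hcont : ContinuousAt (fderiv ℝ u) z :=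
    (hsm.fderiv_right (m := 0) (by simp)).continuousAt
  have hline : Tendsto (fun t : ℝ => t • z) (𝓝[<] 1) (𝓝 z) := by
    have h1 : Continuous (fun t : ℝ => t • z) := by fun_prop
    have h2 : Tendsto (fun t : ℝ => t • z) (𝓝 1) (𝓝 z) := by
      have := h1.tendsto 1
      rwa [one_smul] at this
    exact h2.mono_left nhdsWithin_le_nhds
  have h3 : Tendsto (fun t : ℝ => fderiv ℝ u (t • z)) (𝓝[<] 1) (𝓝 (fderiv ℝ u z)) :=
    hcont.tendsto.comp hline
  have h4 : ∀ᶠ t : ℝ in 𝓝[<] 1, fderiv ℝ u (t • z) = tl := by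
    have h5 : Ioo (0:ℝ) 1 ∈ 𝓝[<] (1:ℝ) := Ioo_mem_nhdsLT (by norm_num)
    filter_upwards [h5] with t ht
    apply hint
    have hz1 := hz.1
    have hz2 := hz.2
    refine ⟨?_, ?_⟩
    · rw [map_smul, norm_smul, Real.norm_of_nonneg ht.1.le]
      nlinarith [ht.1, ht.2, norm_nonneg (tl z)]
    · have : (t • z) 0 = t * z 0 := rfl
      rw [this, abs_mul, abs_of_nonneg ht.1.le]
      nlinarith [ht.1, ht.2, abs_nonneg (z 0)]
  have h6 : Tendsto (fun _ : ℝ => (tl : E (m + 1) →L[ℝ] E m)) (𝓝[<] (1:ℝ)) (𝓝 (fderiv ℝ u z)) :=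
    h3.congr' h4
  exact (tendsto_nhds_unique h6 tendsto_const_nhds).symm ▸ rfl

/-- the state after `k` steps -/
structure Inv (F : X → E (m + 1)) (N : ℕ) (A : Fin N → E (m + 1) → X)
    (L : Fin N → (E (m + 1) ≃L[ℝ] E (m + 1))) (δ : ℝ) (k : ℕ) (G : X → E (m + 1)) : Prop where
  cont : Continuous G
  inj : Injective G
  rng : range G = range F
  off : ∀ p, (∀ i : Fin N, (i : ℕ) < k → p ∉ A i '' box m 1 1) → G p = F p
  close : ∀ p, ‖G p - F p‖ ≤ k * δ
  smn : ∀ p, SmN m F p → SmN m G p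
  ldd : ∀ p, LD (m + 1) F p → LD (m + 1) G p
  good : ∀ i : Fin N, (i : ℕ) < k → ∀ z ∈ box m (1 / 4) (1 / 4), LD (m + 1) G (A i z)
  sm : ∀ j, ∀ z ∈ box m 1 1,
    ∀ᶠ y in 𝓝 (A j z), ContMDiffAt (𝓡 (m + 1)) (𝓡 m) ∞ (fun y => tl (L j (G y))) y
  der : ∀ j, ∀ z ∈ box m 1 1, ‖fderiv ℝ (fun w => tl (L j (G (A j w)))) z - tl‖ ≤
    k * δ * ‖((L j : E (m + 1) ≃L[ℝ] E (m + 1)) : E (m + 1) →L[ℝ] E (m + 1))‖

theorem continuousOn_of_NBox {F : X → E (m + 1)} {A : E (m + 1) → X}
    {L : E (m + 1) ≃L[ℝ] E (m + 1)} {b : E m} (h : NBox m F A L b) :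
    ContinuousOn A (box m 1 1) := fun z hz => (h.ld z hz).continuousAt.continuousWithinAt

end

theorem step_one (hS : StStep) {m : ℕ} {X : Type} [TopologicalSpace X] [T2Space X]
    [ChartedSpace (E (m + 1)) X] [IsManifold (𝓡 (m + 1)) ∞ X] {F : X → E (m + 1)}
    (hF : Continuous F) {N : ℕ} {A : Fin N → E (m + 1) → X}
    {L : Fin N → (E (m + 1) ≃L[ℝ] E (m + 1))} {b : Fin N → E m}
    (hNB : ∀ i, NBox m F (A i) (L i) (b i)) :
    ∃ δ : ℝ, 0 < δ ∧ ∀ k : ℕ, k < N → ∀ G : X → E (m + 1), Inv F N A L δ k G →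
      ∃ G' : X → E (m + 1), Inv F N A L δ (k + 1) G' := by
  classical
  choose η hη hstep using fun i => hS m X F (A i) (L i) (b i) hF (hNB i)
  -- the choice of δ
  obtain ⟨δ, hδ0, hδ⟩ : ∃ δ : ℝ, 0 < δ ∧ ∀ i : Fin N, (N : ℝ) * δ *
      (1 + ‖((L i : E (m + 1) ≃L[ℝ] E (m + 1)) : E (m + 1) →L[ℝ] E (m + 1))‖) ≤ η i := by
    have h1 : ∀ i : Fin N, ∀ᶠ δ : ℝ in 𝓝[>] 0, (N : ℝ) * δ *
      (1 + ‖((L i : E (m + 1) ≃L[ℝ] E (m + 1)) : E (m + 1) →L[ℝ] E (m + 1))‖) < η i := by
      intro i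
      have hc : Continuous (fun δ : ℝ => (N : ℝ) * δ *
        (1 + ‖((L i : E (m + 1) ≃L[ℝ] E (m + 1)) : E (m + 1) →L[ℝ] E (m + 1))‖)) := by fun_prop
      have h2 := hc.tendsto 0
      rw [mul_zero, zero_mul] at h2
      exact (h2.mono_left nhdsWithin_le_nhds).eventually_lt_const (hη i)
    have h3 := (eventually_all.2 h1).and self_mem_nhdsWithin
    obtain ⟨δ, h4, h5⟩ := h3.exists
    exact ⟨δ, h5, fun i => (h4 i).le⟩
  refine ⟨δ, hδ0, ?_⟩
  intro k hk G hG
  set κ : Fin N := ⟨k, hk⟩ with hκ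
  have hkN : (k : ℝ) * δ ≤ N * δ :=
    mul_le_mul_of_nonneg_right (by exact_mod_cast hk.le) hδ0.le
  have hLn : ∀ i : Fin N, 0 ≤ ‖((L i : E (m + 1) ≃L[ℝ] E (m + 1)) :
      E (m + 1) →L[ℝ] E (m + 1))‖ := fun i => norm_nonneg _
  have hNδ : 0 ≤ (N : ℝ) * δ := by positivity
  have hKc : IsCompact (A κ '' box m 1 1) :=
    (isCompact_box 1 1).image_of_continuousOn (continuousOn_of_NBox (hNB κ))
  have hKcl : IsClosed (A κ '' box m 1 1) := hKc.isClosed
  obtain ⟨G', h1, h2, h3, h4, h5, h6, h7, h8, h9, h10⟩ := hstep κ G hG.cont hG.inj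
    (by
      intro p
      refine (hG.close p).trans (hkN.trans ?_)
      refine le_trans ?_ (hδ κ)
      nlinarith [hLn κ])
    (hG.sm κ)
    (by
      intro z hz
      refine (hG.der κ z hz).trans ?_
      refine le_trans ?_ (hδ κ)
      have := mul_le_mul_of_nonneg_right hkN (hLn κ)
      nlinarith [hLn κ])
    N A (fun j => {z | z ∈ box m 1 1 ∧ A j z ∈ A κ '' box m 1 1 ∧
      ¬ ∀ v, tl (L κ v) = 0 → tl (L j v) = 0})
    (by
      intro j
      by_cases hp : ∀ v, tl (L κ v) = 0 → tl (L j v) = 0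
      · have : {z | z ∈ box m 1 1 ∧ A j z ∈ A κ '' box m 1 1 ∧
          ¬ ∀ v, tl (L κ v) = 0 → tl (L j v) = 0} = ∅ := by
          ext z
          simp only [mem_ofPred_eq, mem_empty_iff_false, iff_false]
          rintro ⟨_, _, h⟩
          exact h hp
        rw [this]
        exact isCompact_empty
      · have : {z | z ∈ box m 1 1 ∧ A j z ∈ A κ '' box m 1 1 ∧
          ¬ ∀ v, tl (L κ v) = 0 → tl (L j v) = 0} =
            box m 1 1 ∩ A j ⁻¹' (A κ '' box m 1 1) := by
          ext z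
          simp only [mem_ofPred_eq, mem_inter_iff, mem_preimage]
          constructor
          · rintro ⟨h, h', _⟩; exact ⟨h, h'⟩
          · rintro ⟨h, h'⟩; exact ⟨h, h', hp⟩
        rw [this]
        have hcl := (continuousOn_of_NBox (hNB j)).preimage_isClosed_of_isClosed
          (isCompact_box 1 1).isClosed hKcl
        exact (isCompact_box 1 1).of_isClosed_subset hcl inter_subset_left)
    (by
      rintro j z ⟨hz, hz', hp⟩
      refine ⟨(hNB j).ld z hz, hG.smn _ ?_⟩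
      obtain ⟨w, hw, hwz⟩ := hz'
      have e1 := (hNB κ).sm w hw
      rw [hwz] at e1
      exact smN_of_not_par (L κ) (L j) hp e1 ((hNB j).sm z hz))
    δ hδ0
  -- the new map agrees with the old one near points off the box
  have hoff : ∀ p, p ∉ A κ '' box m 1 1 → G' =ᶠ[𝓝 p] G := by
    intro p hp
    filter_upwards [hKcl.isOpen_compl.mem_nhds hp] with y hy
    exact h4 y hy
  have hpar : ∀ j, (∀ v, tl (L κ v) = 0 → tl (L j v) = 0) →
      ∀ p, tl (L j (G' p)) = tl (L j (G p)) := by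
    intro j hp p
    have e1 := h6 p
    have e2 : tl (L κ (G' p - G p)) = 0 := by
      rw [map_sub, map_sub, e1, sub_self]
    have e3 := hp _ e2
    rw [map_sub, map_sub] at e3
    exact sub_eq_zero.1 e3
  refine ⟨G', h1, h2, h3.trans hG.rng, ?_, ?_, fun p hp => h7 p (hG.smn p hp),
    fun p hp => h8 p (hG.ldd p hp), ?_, ?_, ?_⟩
  · intro p hp
    rw [h4 p (hp κ (Nat.lt_succ_self k))]
    exact hG.off p (fun i hi => hp i (hi.trans (Nat.lt_succ_self k)))
  · intro p
    have e1 : G' p - F p = (G' p - G p) + (G p - F p) := by abel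
    rw [e1]
    refine (norm_add_le _ _).trans ?_
    have := h5 p
    have := hG.close p
    push_cast
    linarith
  · intro i hi z hz
    rcases Nat.lt_succ_iff_lt_or_eq.1 hi with h | h
    · exact h8 _ (hG.good i h z hz)
    · have : i = κ := Fin.ext h
      rw [this]
      exact h9 z hz
  · intro j z hz
    by_cases hp : ∀ v, tl (L κ v) = 0 → tl (L j v) = 0
    · have e : (fun y => tl (L j (G' y))) = fun y => tl (L j (G y)) := by
        funext y; exact hpar j hp y
      rw [e]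
      exact hG.sm j z hz
    · by_cases hin : A j z ∈ A κ '' box m 1 1
      · have hsF : SmN m F (A j z) := by
          obtain ⟨w, hw, hwz⟩ := hin
          have e1 := (hNB κ).sm w hw
          rw [hwz] at e1
          exact smN_of_not_par (L κ) (L j) hp e1 ((hNB j).sm z hz)
        have hsG' : SmN m G' (A j z) := h7 _ (hG.smn _ hsF)
        filter_upwards [hsG'] with y hy
        have hT : ContMDiff (𝓡 (m + 1)) (𝓡 m) ∞ (fun w : E (m + 1) => tl (L j w)) :=
          ((tl : E (m + 1) →L[ℝ] E m) ∘L (L j : E (m + 1) →L[ℝ] E (m + 1))).contMDiff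
        exact ContMDiffAt.comp (g := fun w : E (m + 1) => tl (L j w)) y hT.contMDiffAt hy
      · have e1 := (hoff _ hin).eventually_nhds
        filter_upwards [hG.sm j z hz, e1] with y hy hy'
        refine hy.congr_of_eventuallyEq ?_
        filter_upwards [hy'] with w hw
        rw [hw]
  · intro j z hz
    have hLj := hLn j
    have hstepk : ((k : ℝ) * δ) * ‖((L j : E (m + 1) ≃L[ℝ] E (m + 1)) :
        E (m + 1) →L[ℝ] E (m + 1))‖ ≤ ((k + 1 : ℕ) : ℝ) * δ * ‖((L j : E (m + 1) ≃L[ℝ] E (m + 1)) :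
        E (m + 1) →L[ℝ] E (m + 1))‖ := by
      apply mul_le_mul_of_nonneg_right _ hLj
      apply mul_le_mul_of_nonneg_right _ hδ0.le
      push_cast; linarith
    by_cases hp : ∀ v, tl (L κ v) = 0 → tl (L j v) = 0
    · have e : (fun w => tl (L j (G' (A j w)))) = fun w => tl (L j (G (A j w))) := by
        funext w; exact hpar j hp _
      rw [e]
      exact (hG.der j z hz).trans hstepk
    · by_cases hin : A j z ∈ A κ '' box m 1 1
      · have hsF : SmN m F (A j z) := by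
          obtain ⟨w, hw, hwz⟩ := hin
          have e1 := (hNB κ).sm w hw
          rw [hwz] at e1
          exact smN_of_not_par (L κ) (L j) hp e1 ((hNB j).sm z hz)
        have hsG : SmN m G (A j z) := hG.smn _ hsF
        have hsG' : SmN m G' (A j z) := h7 _ hsG
        have hA := (hNB j).ld z hz
        have d1 := differentiableAt_comp hA hsG
        have d2 := differentiableAt_comp hA hsG'
        set T : E (m + 1) →L[ℝ] E m :=
          (tl : E (m + 1) →L[ℝ] E m) ∘L (L j : E (m + 1) →L[ℝ] E (m + 1)) with hT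
        have f1 : fderiv ℝ (fun w => tl (L j (G (A j w)))) z =
            T ∘L fderiv ℝ (fun w => G (A j w)) z :=
          (T.hasFDerivAt.comp z d1.hasFDerivAt).fderiv
        have f2 : fderiv ℝ (fun w => tl (L j (G' (A j w)))) z =
            T ∘L fderiv ℝ (fun w => G' (A j w)) z :=
          (T.hasFDerivAt.comp z d2.hasFDerivAt).fderiv
        have f3 : fderiv ℝ (fun w => tl (L j (G' (A j w)))) z - tl =
            T ∘L (fderiv ℝ (fun w => G' (A j w)) z - fderiv ℝ (fun w => G (A j w)) z) +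
            (fderiv ℝ (fun w => tl (L j (G (A j w)))) z - tl) := by
          rw [f1, f2, ContinuousLinearMap.comp_sub]
          abel
        rw [f3]
        have f4 := h10 j z ⟨hz, hin, hp⟩
        have f5 : ‖T‖ ≤ ‖((L j : E (m + 1) ≃L[ℝ] E (m + 1)) : E (m + 1) →L[ℝ] E (m + 1))‖ := by
          refine (ContinuousLinearMap.opNorm_comp_le _ _).trans ?_
          have := mul_le_mul_of_nonneg_right (norm_tl_clm (m := m)) hLj
          linarith
        refine (norm_add_le _ _).trans ?_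
        have f6 : ‖T ∘L (fderiv ℝ (fun w => G' (A j w)) z - fderiv ℝ (fun w => G (A j w)) z)‖ ≤
            δ * ‖((L j : E (m + 1) ≃L[ℝ] E (m + 1)) : E (m + 1) →L[ℝ] E (m + 1))‖ := by
          refine (ContinuousLinearMap.opNorm_comp_le _ _).trans ?_
          rw [mul_comm]
          exact mul_le_mul f4 f5 (norm_nonneg _) hδ0.le
        have f7 := hG.der j z hz
        push_cast
        have f8 : ((k:ℝ) + 1) * δ * ‖((L j : E (m + 1) ≃L[ℝ] E (m + 1)) :
            E (m + 1) →L[ℝ] E (m + 1))‖ = δ * ‖((L j : E (m + 1) ≃L[ℝ] E (m + 1)) :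
            E (m + 1) →L[ℝ] E (m + 1))‖ + k * δ * ‖((L j : E (m + 1) ≃L[ℝ] E (m + 1)) :
            E (m + 1) →L[ℝ] E (m + 1))‖ := by ring
        rw [f8]
        exact add_le_add f6 f7
      · have e1 : (fun w => tl (L j (G' (A j w)))) =ᶠ[𝓝 z] fun w => tl (L j (G (A j w))) := by
          have e2 := ((hNB j).ld z hz).continuousAt.tendsto.eventually (hoff _ hin)
          filter_upwards [e2] with w hw
          rw [hw]
        rw [e1.fderiv_eq]
        exact (hG.der j z hz).trans hstepk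

theorem glob (hN : StNBox) (hS : StStep) : StGlob := by
  intro m X _ _ _ _ F hF hinj hco hK
  classical
  choose! A L b hA0 hNB using fun x (hx : ¬ LD (m + 1) F x) => hN m X F hF hinj x (hco x hx)
  -- the cover
  have hopen : ∀ x, ¬ LD (m + 1) F x →
      IsOpen (A x '' {z : E (m + 1) | ‖tl z‖ < 1 / 4 ∧ |z 0| < 1 / 4}) := by
    intro x hx
    apply isOpen_image_of_LD (n := m + 1) (open_small_box (1 / 4))
    intro z hz
    apply (hNB x hx).ld
    exact ⟨by have := hz.1; linarith, by have := hz.2; linarith⟩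
  obtain ⟨t, ht⟩ := hK.elim_finite_subcover
    (fun x : {x | ¬ LD (m + 1) F x} => A x '' {z : E (m + 1) | ‖tl z‖ < 1 / 4 ∧ |z 0| < 1 / 4})
    (fun x => hopen x x.2)
    (by
      intro x hx
      rw [mem_iUnion]
      refine ⟨⟨x, hx⟩, 0, ?_, hA0 x hx⟩
      refine ⟨?_, ?_⟩
      · rw [map_zero, norm_zero]; norm_num
      · change |(0:ℝ)| < 1 / 4
        rw [abs_zero]; norm_num)
  set N := t.card with hNdef
  set e := t.equivFin with he
  set A' : Fin N → E (m + 1) → X := fun i => A (e.symm i : {x | ¬ LD (m + 1) F x}) with hA'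
  set L' : Fin N → (E (m + 1) ≃L[ℝ] E (m + 1)) :=
    fun i => L (e.symm i : {x | ¬ LD (m + 1) F x}) with hL'
  set b' : Fin N → E m := fun i => b (e.symm i : {x | ¬ LD (m + 1) F x}) with hb'
  have hNB' : ∀ i, NBox m F (A' i) (L' i) (b' i) := fun i =>
    hNB _ (e.symm i : {x | ¬ LD (m + 1) F x}).2
  have hcov : ∀ x, ¬ LD (m + 1) F x → ∃ i : Fin N, ∃ z ∈ box m (1 / 4) (1 / 4), A' i z = x := by
    intro x hx
    have h1 := ht hx
    simp only [mem_iUnion] at h1
    obtain ⟨y, hy, z, hz, hzx⟩ := h1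
    refine ⟨e ⟨y, hy⟩, z, ⟨hz.1.le, hz.2.le⟩, ?_⟩
    rw [hA']
    simp only [Equiv.symm_apply_apply]
    exact hzx
  obtain ⟨δ, hδ0, hstep⟩ := step_one hS hF hNB'
  have hind : ∀ k : ℕ, k ≤ N → ∃ G : X → E (m + 1), Inv F N A' L' δ k G := by
    intro k
    induction k with
    | zero =>
      intro _
      refine ⟨F, hF, hinj, rfl, fun _ _ => rfl, ?_, fun _ h => h, fun _ h => h, ?_, ?_, ?_⟩
      · intro p; simp
      · intro i hi; exact absurd hi (Nat.not_lt_zero _)
      · intro j z hz; exact (hNB' j).sm z hz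
      · intro j z hz
        rw [NBox_fderiv (hNB' j) hz]
        simp
    | succ k ih =>
      intro hk
      obtain ⟨G, hG⟩ := ih (by omega)
      exact hstep k (by omega) G hG
  obtain ⟨G, hG⟩ := hind N le_rfl
  refine ⟨G, ⋃ i : Fin N, A' i '' box m 1 1, ?_, hG.cont, hG.inj, hG.rng, ?_, ?_⟩
  · exact isCompact_iUnion fun i =>
      (isCompact_box 1 1).image_of_continuousOn (continuousOn_of_NBox (hNB' i))
  · intro p hp
    apply hG.off
    intro i _ hi
    exact hp (mem_iUnion.2 ⟨i, hi⟩)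
  · intro x
    by_cases hx : LD (m + 1) F x
    · exact hG.ldd x hx
    · obtain ⟨i, z, hz, rfl⟩ := hcov x hx
      exact hG.good i i.2 z hz

end Pool.Agent.Y870.SH
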